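import Mathlib
import Pool.Agent.H8.LasryMain

set_option autoImplicit false
open MeasureTheory Set Pointwise

namespace Pool.Agent.Results.MP_562679_an.CurseBall

/-- the class `C̃²(D)` -/
def C2 {d : ℕ} (D : Set (EuclideanSpace ℝ (Fin d))) : Set (EuclideanSpace ℝ (Fin d) → ℝ) :=
  {f | ContDiffOn ℝ 2 f D ∧ (∀ y ∈ D, |f y| ≤ 1) ∧
    (∀ y ∈ D, ∀ z ∈ D, |f y - f z| ≤ (√(d : ℝ))⁻¹ * dist y z) ∧
    ∀ θ : EuclideanSpace ℝ (Fin d), ‖θ‖ = 1 → ∀ y ∈ D, ∀ z ∈ D,
      |fderiv ℝ f y θ - fderiv ℝ f z θ| ≤ (d : ℝ)⁻¹ * dist y z}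

/-- an adaptive deterministic algorithm: the next node in `D` and the output are arbitrary
functions of the list of function values seen so far -/
structure Alg {d : ℕ} (D : Set (EuclideanSpace ℝ (Fin d))) where
  next : List ℝ → EuclideanSpace ℝ (Fin d)
  next_mem : ∀ l, next l ∈ D
  out : List ℝ → ℝ

/-- the first `k` function values computed by `A` on input `f` -/
def info {d : ℕ} {D : Set (EuclideanSpace ℝ (Fin d))} (A : Alg D)
    (f : EuclideanSpace ℝ (Fin d) → ℝ) : ℕ → List ℝ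
  | 0 => []
  | k + 1 => f (A.next (info A f k)) :: info A f k

/-- the `n`-th minimal worst-case error `e(n, C̃²(D))` -/
noncomputable def err {d : ℕ} (D : Set (EuclideanSpace ℝ (Fin d))) (n : ℕ) : ENNReal :=
  ⨅ A : Alg D, ⨆ f ∈ C2 D, ENNReal.ofReal |(∫ y in D, f y) - A.out (info A f n)|

/-- the open unit ball of `ℓ_p^d` -/
def unitBall (p : ℝ) (d : ℕ) : Set (EuclideanSpace ℝ (Fin d)) := {x | ∑ i, |x i| ^ p < 1}

/-- the ball `B_{p,d}`: the unit ball scaled by `vol(unit ball)^(-1/d)` -/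
noncomputable def ballP (p : ℝ) (d : ℕ) : Set (EuclideanSpace ℝ (Fin d)) :=
  (volume.real (unitBall p d) ^ (-(1 : ℝ) / d)) • unitBall p d

lemma open_unit {p : ℝ} (hp : 0 < p) (d : ℕ) : IsOpen (unitBall p d) :=
  isOpen_lt (continuous_finsetSum _ fun i _ =>
    (by fun_prop : Continuous fun x : EuclideanSpace ℝ (Fin d) => |x i|).rpow_const
      fun _ => Or.inr hp.le) continuous_const

lemma vol_pos {p : ℝ} (hp : 0 < p) (d : ℕ) : 0 < volume.real (unitBall p d) := by
  refine ENNReal.toReal_pos ((open_unit hp d).measure_ne_zero _ ⟨0, ?_⟩) ?_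
  · simp [unitBall, Real.zero_rpow hp.ne']
  · refine (Bornology.IsBounded.measure_lt_top ?_).ne
    refine (Metric.isBounded_closedBall (x := 0) (r := √d)).subset fun x hx => ?_
    rw [mem_closedBall_zero_iff, EuclideanSpace.norm_eq]
    apply Real.sqrt_le_sqrt
    have h : ∀ i, ‖x i‖ ^ 2 ≤ 1 := fun i => by
      have h1 : |x i| ^ p ≤ ∑ j, |x j| ^ p :=
        Finset.single_le_sum (f := fun j => |x j| ^ p) (fun j _ => by positivity) (Finset.mem_univ i)
      have h2 : |x i| ≤ 1 := by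
        by_contra h3
        have := Real.one_le_rpow (le_of_not_ge h3) hp.le
        have h4 : ∑ j, |x j| ^ p < 1 := hx
        linarith
      rw [Real.norm_eq_abs]
      nlinarith [abs_nonneg (x i)]
    exact (Finset.sum_le_sum fun i _ => h i).trans (by simp)

lemma info_zero {d : ℕ} {D : Set (EuclideanSpace ℝ (Fin d))} (A : Alg D)
    {f : EuclideanSpace ℝ (Fin d) → ℝ} {m : ℕ}
    (hf : ∀ k < m, f (A.next (List.replicate k 0)) = 0) :
    ∀ k ≤ m, info A f k = List.replicate k 0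
  | 0, _ => rfl
  | k + 1, h => by
    rw [info, info_zero A hf k (by omega), hf k (by omega), List.replicate_succ]

theorem result : ∃ C > (0 : ℝ), ∃ γ > (0 : ℝ), ∃ e₀ > (0 : ℝ), ∀ p > (0 : ℝ), ∀ d : ℕ, 1 ≤ d →
    volume (ballP p d) = 1 ∧ ∀ e ∈ Ioc (0 : ℝ) e₀, ∀ n : ℕ,
      err (ballP p d) n ≤ ENNReal.ofReal e → C * (1 + γ) ^ d ≤ n := by
  obtain ⟨C, hC, H⟩ := Pool.Agent.H8.LasryMain.fool
  refine ⟨1, one_pos, 1, one_pos, C / 8, by positivity, fun p hp d hd => ?_⟩
  have hv := vol_pos hp d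
  have hd' : (0 : ℝ) < d := by exact_mod_cast hd
  have hr : 0 < volume.real (unitBall p d) ^ (-(1 : ℝ) / d) := Real.rpow_pos_of_pos hv _
  have hvol : volume (ballP p d) = 1 := by
    rw [ballP, Measure.addHaar_smul_of_nonneg _ hr.le, finrank_euclideanSpace_fin,
      ← Real.rpow_natCast, ← Real.rpow_mul hv.le, div_mul_cancel₀ _ hd'.ne', Real.rpow_neg_one,
      ENNReal.ofReal_inv_of_pos hv]
    have hne : volume (unitBall p d) ≠ ⊤ := fun h => by simp [measureReal_def, h] at hv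
    rw [ofReal_measureReal hne]
    exact ENNReal.inv_mul_cancel ((open_unit hp d).measure_ne_zero _
      ⟨0, by simp [unitBall, Real.zero_rpow hp.ne']⟩) hne
  refine ⟨hvol, fun e he n h => ?_⟩
  by_contra hn
  have hn' : n ≤ 2 ^ d := by
    have : (n : ℝ) ≤ 2 ^ d := by
      push Not at hn
      norm_num at hn
      exact hn.le
    exact_mod_cast this
  have key : ENNReal.ofReal (C / 4) ≤ err (ballP p d) n := by
    refine le_iInf fun A => ?_
    obtain ⟨f, f1, f2, f3, f4, f5, f6⟩ := H d hd (ballP p d) ((open_unit hp d).smul₀ hr.ne') hvol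
      (2 ^ d) Nat.one_le_two_pow (fun k => A.next (List.replicate k 0)) fun k => A.next_mem _
    have e4 : ((2 ^ d : ℕ) : ℝ) ^ (-(2 : ℝ) / d) = 1 / 4 := by
      push_cast
      rw [← Real.rpow_natCast, ← Real.rpow_mul zero_le_two, mul_div_cancel₀ _ hd'.ne']
      norm_num
    rw [e4] at f6
    have g1 : f ∈ C2 (ballP p d) := ⟨f1, f2, f3, f4⟩
    have g2 : -f ∈ C2 (ballP p d) := by
      refine ⟨f1.neg, fun y hy => by simpa using f2 y hy, fun y hy z hz => ?_,
        fun θ hθ y hy z hz => ?_⟩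
      · rw [Pi.neg_apply, Pi.neg_apply, neg_sub_neg, dist_comm]
        exact f3 z hz y hy
      · rw [fderiv_neg, fderiv_neg, ContinuousLinearMap.neg_apply, ContinuousLinearMap.neg_apply,
          neg_sub_neg, dist_comm]
        exact f4 θ hθ z hz y hy
    have i1 := info_zero A (f := f) (fun k hk => f5 ⟨k, hk⟩) n hn'
    have i2 := info_zero A (f := -f) (fun k hk => neg_eq_zero.mpr (f5 ⟨k, hk⟩)) n hn'
    have hneg : ∫ y in ballP p d, (-f) y = -∫ y in ballP p d, f y := integral_neg f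
    by_cases hc : C / 4 ≤ |(∫ y in ballP p d, f y) - A.out (info A f n)|
    · exact le_iSup₂_of_le f g1 (ENNReal.ofReal_le_ofReal hc)
    · refine le_iSup₂_of_le (-f) g2 (ENNReal.ofReal_le_ofReal ?_)
      rw [hneg, i2]
      rw [i1] at hc
      push Not at hc
      have a1 := abs_lt.mp hc
      rcases le_abs.mp f6 with a2 | a2
      · exact le_abs.mpr (Or.inr (by linarith))
      · exact le_abs.mpr (Or.inl (by linarith))
  have := (ENNReal.ofReal_le_ofReal_iff he.1.le).mp (key.trans h)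
  linarith [he.2]

end Pool.Agent.Results.MP_562679_an.CurseBall
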